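import Mathlib

namespace Pool.Agent.Results.MP_7a0dfe_nt.Big

open Polynomial Finset

theorem result (p q b : ℕ) (hp : p.Prime) (hq : q.Prime) (ho : Odd p) (hpq : p < q) (hb : 2 < b) :
    ∃ f : ℤ[X], f ∣ X ^ (p * q ^ b) - 1 ∧ ∃ n, 2 * p ≤ (f.coeff n).natAbs := by
  have : Fact p.Prime := ⟨hp⟩
  have : Fact q.Prime := ⟨hq⟩
  have hp3 : 3 ≤ p := by have := hp.two_le; rcases ho with ⟨k, hk⟩; omega
  have hnd : ¬ q ∣ p := Nat.not_dvd_of_pos_of_lt hp.pos hpq
  set W : ℤ[X] := cyclotomic p ℤ * cyclotomic q ℤ with hW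
  set g : ℤ[X] := cyclotomic (p * q) ℤ * cyclotomic (q * q) ℤ with hg
  have h1 : W.coeff (p - 1) = p := by
    rw [hW, coeff_mul, sum_congr rfl (g := fun _ => 1) fun x hx => by
      have := mem_antidiagonal.1 hx
      simp [cyclotomic_prime, coeff_X_pow, show x.1 < p by omega, show x.2 < q by omega]]
    simp; omega
  have h2 : W.natDegree = p - 1 + (q - 1) := by
    rw [hW, (cyclotomic.monic _ _).natDegree_mul (cyclotomic.monic _ _), natDegree_cyclotomic,
      natDegree_cyclotomic, Nat.totient_prime hp, Nat.totient_prime hq]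
  have h3 : g * X ^ p - g = expand ℤ q W * X - expand ℤ q W := by
    rw [hW, map_mul, cyclotomic_expand_eq_cyclotomic_mul hq hnd,
      cyclotomic_expand_eq_cyclotomic hq dvd_rfl]
    linear_combination (-g) * cyclotomic_prime_mul_X_sub_one ℤ p
  obtain ⟨k, hk⟩ : ∃ k, 2 ≤ (g.coeff k).natAbs := by
    obtain ⟨m, hm⟩ : ∃ m, q * (p - 1) = m + 1 := ⟨_, (Nat.succ_pred_eq_of_pos
      (Nat.mul_pos hq.pos (by omega))).symm⟩
    have h4 := congrArg (coeff · (m + 1)) h3
    simp only [coeff_sub, coeff_mul_X, coeff_mul_X_pow', coeff_expand hq.pos] at h4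
    rw [if_neg (show ¬ q ∣ m from fun h => hq.one_lt.ne' (Nat.dvd_one.1
      ((Nat.dvd_add_right h).1 (hm ▸ Dvd.intro _ rfl)))), if_pos (show q ∣ m + 1 from ⟨_, hm.symm⟩),
      ← hm, Nat.mul_div_cancel_left _ hq.pos, h1] at h4
    by_contra hc
    push Not at hc
    have := hc (q * (p - 1))
    have := hc (q * (p - 1) - p)
    split_ifs at h4 <;> omega
  refine ⟨W * expand ℤ q g, ?_, p - 1 + q * k, ?_⟩
  · obtain ⟨c, rfl⟩ : ∃ c, b = 3 + c := ⟨b - 3, by omega⟩
    have hq1 := hq.one_lt
    have a1 : q < p * q * q := by nlinarith [show 1 < p * q by nlinarith]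
    have a2 : p * q * q < q * q * q := by nlinarith [Nat.mul_pos hq.pos hq.pos]
    rw [← prod_cyclotomic_eq_X_pow_sub_one (by positivity)]
    refine Dvd.dvd.trans (dvd_of_eq ?_) (prod_dvd_prod_of_subset {p, q, p * q * q, q * q * q} _ _ ?_)
    · rw [prod_insert (by simp only [mem_insert, mem_singleton]; omega),
        prod_insert (by simp only [mem_insert, mem_singleton]; omega), prod_pair a2.ne, hg, map_mul,
        cyclotomic_expand_eq_cyclotomic hq (Dvd.intro_left _ rfl),
        cyclotomic_expand_eq_cyclotomic hq (Dvd.intro_left _ rfl), hW, mul_assoc]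
    · intro d hd
      simp only [mem_insert, mem_singleton] at hd
      refine Nat.mem_divisors.2 ⟨?_, by positivity⟩
      rcases hd with rfl | rfl | rfl | rfl
      exacts [⟨_, rfl⟩, ⟨p * d ^ (2 + c), by ring⟩, ⟨q ^ (1 + c), by ring⟩, ⟨p * q ^ c, by ring⟩]
  · rw [coeff_mul, sum_eq_single_of_mem (p - 1, q * k) (by simp), h1, coeff_expand hq.pos,
      if_pos (Dvd.intro _ rfl), Nat.mul_div_cancel_left _ hq.pos, Int.natAbs_mul, Int.natAbs_natCast]
    · nlinarith
    · rintro ⟨i, j⟩ hx hne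
      have h4 := mem_antidiagonal.1 hx
      rw [coeff_expand hq.pos]
      split_ifs with h5
      · obtain ⟨t, rfl⟩ := h5
        rw [coeff_eq_zero_of_natDegree_lt, zero_mul]
        simp only at h4 ⊢
        rcases lt_trichotomy t k with h | rfl | h
        · have : q * (t + 1) ≤ q * k := Nat.mul_le_mul_left _ h
          rw [mul_add] at this; omega
        · exact absurd (by rw [show i = p - 1 by omega]) hne
        · have : q * (k + 1) ≤ q * t := Nat.mul_le_mul_left _ h
          rw [mul_add] at this; omega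
      · simp

end Pool.Agent.Results.MP_7a0dfe_nt.Big
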